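import Mathlib
import Pool.Agent.N788.Sys.One

/-!
# Elliott's conjecture at every scale with the original hypothesis on one real factor, several short
and long parameters

The product of `k` multiplicative functions at linear forms in `n`, in long parameters and in
parameters which grow arbitrarily slowly. Only ONE of the functions is assumed to be
non-pretentious; the other ones are arbitrary and may depend on everything. The form of this
function is not a combination of the other forms of its cluster; it may be a combination of the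
forms of the other clusters.

From the team: the reduction to one cluster (`Pool.Agent.N675.M`, project M of helper675), short
exponential sums of real non-pretentious functions (`Pool.Agent.R512`, starting files, after
Matomäki, Radziwiłł and Tao). From Mathlib: `Fintype.piFinset S`: the vectors `d` with `d j ∈ S j`
for all `j`; `m.natAbs`: the absolute value of the integer `m`; `Nat.Primes`: the type of the prime
numbers.
-/

open Finset

namespace Pool.Agent.Results.MP_0c9a68_nt.OneFactorInCluster

/-- Multiplicative functions with values in the closed unit disc. -/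
def IsMult (f : ℕ → ℂ) : Prop :=
  (∀ n, ‖f n‖ ≤ 1) ∧ ∀ m n : ℕ, m.Coprime n → f (m * n) = f m * f n

/-- `f(p) = 1` or `-1` at all primes `p`, and `𝔻(f, χ; ∞) = ∞` for all real Dirichlet characters
`χ`. -/
def RealNonPretentious (f : ℕ → ℂ) : Prop :=
  (∀ p : ℕ, p.Prime → f p = 1 ∨ f p = -1) ∧
  ∀ (q : ℕ) (χ : DirichletCharacter ℂ q), 1 ≤ q → χ ^ 2 = 1 →
    ¬ Summable fun p : Nat.Primes =>
      (1 - (f p * (starRingEnd ℂ) (χ ((p : ℕ) : ZMod q))).re) / ((p : ℕ) : ℝ)

/-- The correlation sum `∑_{n ≤ x} ∏ i, f i |a i n + ∑ j, L i j d j|`. -/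
noncomputable def corr {k r : ℕ} (a : Fin k → ℤ) (L : Fin k → Fin r → ℤ) (f : Fin k → ℕ → ℂ)
    (x : ℕ) (d : Fin r → ℤ) : ℂ :=
  ∑ n ∈ Icc (1 : ℤ) x, ∏ i, f i (a i * n + ∑ j, L i j * d j).natAbs

/-- The cluster of the form `i₀` among the forms `a i n + ∑ t, L i t d t`: the forms whose vector of
coefficients at `n` and at the long parameters `d t`, `t ∈ lg`, is proportional to the one of the
form `i₀`. Without long parameters it consists of all forms. -/
def cluster {k r : ℕ} (a : Fin k → ℤ) (L : Fin k → Fin r → ℤ) (lg : Finset (Fin r))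
    (i₀ : Fin k) : Finset (Fin k) :=
  univ.filter fun i => ∀ t ∈ lg, a i * L i₀ t = a i₀ * L i t

/-- There is an integer direction `(w, v)` in which the form `i₀` varies and the other forms of its
cluster do not: the form is not a linear combination of the other forms of its cluster. -/
def Independent {k r : ℕ} (a : Fin k → ℤ) (L : Fin k → Fin r → ℤ) (lg : Finset (Fin r))
    (i₀ : Fin k) : Prop :=
  ∃ (w : ℤ) (v : Fin r → ℤ), a i₀ * w + ∑ t, L i₀ t * v t ≠ 0 ∧
    ∀ i ∈ cluster a L lg i₀, i ≠ i₀ → a i * w + ∑ t, L i t * v t = 0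

/-- long parameters as a boolean function -/
def lgb {r : ℕ} (lg : Finset (Fin r)) (t : Fin r) : Bool := decide (t ∈ lg)

lemma cls_eq {k r : ℕ} (a : Fin k → ℤ) (L : Fin k → Fin r → ℤ) (lg : Finset (Fin r))
    (i₀ : Fin k) : Pool.Agent.N675.M.cls a L (lgb lg) i₀ = cluster a L lg i₀ := by
  ext i
  rw [Pool.Agent.N675.M.mem_cls]
  unfold cluster
  rw [Finset.mem_filter]
  simp [lgb]

/-- Let `a i n + L i (d)` be integer linear forms in `n` and `r` parameters `d`, `a i ≠ 0`, let `lg`
be a set of parameters, called long, and let the form `i₀` be independent of the other forms of its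
cluster. Let `h` be a multiplicative function with values in the unit disc, `h(p) = 1` or `-1` at the
primes, with infinite distance to all real Dirichlet characters. For all `R` and `ε > 0` there is `K`
such that for all `x ≥ K`, all `K ≤ D j ≤ R x`, with `x ≤ R (D j)` for the long parameters, and ALL
multiplicative functions `f i` with values in the unit disc and `f i₀ = h`, the sum over the box
`1 ≤ d j ≤ D j` of the ABSOLUTE VALUES of the correlation sums is at most `ε x ∏ D j`. -/
theorem result : ∀ (k r : ℕ) (a : Fin k → ℤ) (L : Fin k → Fin r → ℤ), (∀ i, a i ≠ 0) →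
    ∀ (lg : Finset (Fin r)) (i₀ : Fin k), Independent a L lg i₀ →
    ∀ h : ℕ → ℂ, IsMult h → RealNonPretentious h → ∀ (R : ℕ) (ε : ℝ), 0 < ε →
    ∃ K : ℕ, ∀ (D : Fin r → ℕ) (x : ℕ),
      K ≤ x → (∀ j, K ≤ D j) → (∀ j, D j ≤ R * x) → (∀ j ∈ lg, x ≤ R * D j) →
      ∀ f : Fin k → ℕ → ℂ, (∀ i, IsMult (f i)) → f i₀ = h →
      ∑ d ∈ Fintype.piFinset (fun j => Icc (1 : ℤ) (D j)), ‖corr a L f x d‖
        ≤ ε * (x * ∏ j, (D j : ℝ)) := by
  intro k r a L ha lg i₀ hI h hm hR R ε hε
  obtain ⟨w, v, hV1, hV0⟩ := hI
  have hd : Pool.Agent.N675.M.Cdir a L (lgb lg) i₀ i₀ := by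
    refine ⟨?_, w, v, hV1, fun i hi hne => ?_⟩
    · rw [Pool.Agent.N675.M.mem_cls]
      intro t _
      rfl
    · rw [cls_eq] at hi
      exact hV0 i hi hne
  obtain ⟨K, hK⟩ := Pool.Agent.N788.Sys.one_factor a L (lgb lg) i₀ ha hd h hm hR R ε hε
  exact ⟨K, fun D x hx hD hDx hlg f hf hfi => hK D x hD hx hDx
    (fun j hj => hlg j (by simpa [lgb] using hj)) f hf hfi⟩

end Pool.Agent.Results.MP_0c9a68_nt.OneFactorInCluster
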