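import Mathlib
import Pool.Agent.N788.QP.Fin

/-!
# Elliott's conjecture at every scale with the original hypothesis on one real factor, along almost
all tuples of primes and rough numbers

The product of `k` multiplicative functions at linear forms in `n` and in parameters which run over
the points at which given affine functions of them are prime or have no small prime factors, and
which may grow arbitrarily slowly. Only ONE of the functions is assumed to be non-pretentious; the
other ones are arbitrary and may depend on everything.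

From the team: the transference theorem in several parameters for arbitrary bounded functions
(`Pool.Agent.N675.Q`, project Q of helper675), the reduction to one cluster (`Pool.Agent.N675.M`,
project M of helper675), short exponential sums of real non-pretentious functions
(`Pool.Agent.R512`, starting files, after Matomäki, Radziwiłł and Tao). From Mathlib:
`ArithmeticFunction.vonMangoldt`: the von Mangoldt function; `Fintype.piFinset S`: the families `d`
with `d j ∈ S j` for all `j`; `m.natAbs`: the absolute value of the integer `m`; `Nat.Primes`: the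
type of the prime numbers.
-/

open Finset

namespace Pool.Agent.Results.MP_0c9a68_nt.OneFactorPrimeTuples

/-- Multiplicative functions with values in the closed unit disc. -/
def IsMult (f : ℕ → ℂ) : Prop :=
  (∀ n, ‖f n‖ ≤ 1) ∧ ∀ m n : ℕ, m.Coprime n → f (m * n) = f m * f n

/-- `f(p) = 1` or `-1` at all primes `p`, and `𝔻(f, χ; ∞) = ∞` for all real Dirichlet characters
`χ`. -/
def RealNonPretentious (f : ℕ → ℂ) : Prop :=
  (∀ p : ℕ, p.Prime → f p = 1 ∨ f p = -1) ∧
  ∀ (q : ℕ) (χ : DirichletCharacter ℂ q), 1 ≤ q → χ ^ 2 = 1 →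
    ¬ Summable fun p : Nat.Primes =>
      (1 - (f p * (starRingEnd ℂ) (χ ((p : ℕ) : ZMod q))).re) / ((p : ℕ) : ℝ)

open Classical in
/-- The weight of the integer `m`: the von Mangoldt function of `|m|`, plus `log D` if no prime
`p ≤ D ^ δ` divides `m`. -/
noncomputable def weight (δ : ℝ) (D : ℕ) (m : ℤ) : ℝ :=
  (if ∀ p : ℕ, p.Prime → (p : ℝ) ≤ (D : ℝ) ^ δ → ¬ (p : ℤ) ∣ m then Real.log D else 0)
    + ArithmeticFunction.vonMangoldt m.natAbs

/-- No two of the affine functions `∑ u, l j u * z u + c j` are proportional. -/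
def NonProp {r t : ℕ} (l : Fin t → Fin r → ℤ) (c : Fin t → ℤ) : Prop :=
  ∀ j j', j ≠ j' → (∃ u u', l j u * l j' u' ≠ l j' u * l j u') ∨ ∃ u, l j u * c j' ≠ l j' u * c j

/-- The correlation sum `∑_{n ≤ x} ∏ i, f i |a i n + ∑ g, ∑ u, L i g u y g u|`. -/
noncomputable def corr {s r k : ℕ} (a : Fin k → ℤ) (L : Fin k → Fin s → Fin r → ℤ)
    (f : Fin k → ℕ → ℂ) (x : ℕ) (y : Fin s → Fin r → ℤ) : ℂ :=
  ∑ n ∈ Icc (1 : ℤ) x, ∏ i, f i (a i * n + ∑ g, ∑ u, L i g u * y g u).natAbs

/-- The cluster of the form `i₀`: the forms whose vector of coefficients at `n` and at the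
parameters of the long blocks `g ∈ lg` is proportional to the one of the form `i₀`. Without long
blocks it consists of all forms. -/
def cluster {s r k : ℕ} (a : Fin k → ℤ) (L : Fin k → Fin s → Fin r → ℤ) (lg : Finset (Fin s))
    (i₀ : Fin k) : Finset (Fin k) :=
  univ.filter fun i => ∀ g ∈ lg, ∀ u, a i * L i₀ g u = a i₀ * L i g u

/-- There is an integer direction `(w, v)` in which the form `i₀` varies and the other forms of its
cluster do not: the form is not a linear combination of the other forms of its cluster. -/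
def Independent {s r k : ℕ} (a : Fin k → ℤ) (L : Fin k → Fin s → Fin r → ℤ)
    (lg : Finset (Fin s)) (i₀ : Fin k) : Prop :=
  ∃ (w : ℤ) (v : Fin s → Fin r → ℤ), a i₀ * w + ∑ g, ∑ u, L i₀ g u * v g u ≠ 0 ∧
    ∀ i ∈ cluster a L lg i₀, i ≠ i₀ → a i * w + ∑ g, ∑ u, L i g u * v g u = 0

/-- long blocks as a boolean function -/
def lgb {s : ℕ} (lg : Finset (Fin s)) (g : Fin s) : Bool := decide (g ∈ lg)

lemma cls_eq {s r k : ℕ} (a : Fin k → ℤ) (L : Fin k → Fin s → Fin r → ℤ) (lg : Finset (Fin s))
    (i₀ : Fin k) : Pool.Agent.N675.M.cls a (Pool.Agent.N788.QP.fl L)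
      (fun q : Fin s × Fin r => lgb lg q.1) i₀ = cluster a L lg i₀ := by
  ext i
  rw [Pool.Agent.N675.M.mem_cls]
  unfold cluster
  rw [Finset.mem_filter]
  constructor
  · intro h
    exact ⟨Finset.mem_univ _, fun g hg u => h (g, u) (by simpa [lgb] using hg)⟩
  · rintro ⟨-, h⟩ q hq
    exact h q.1 (by simpa [lgb] using hq) q.2

/-- Let `a i n + ∑ g, ∑ u, L i g u * y g u`, `i < k`, be integer linear forms in `n` and in the
parameters `y g u` (`s` blocks of `r` parameters), `a i ≠ 0`; the blocks `g ∈ lg` are called long.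
Let the form `i₀` be independent of the other forms of its cluster. For every block let
`∑ u, l g j u * z u + c g j`, `j < t g`, be at least one affine function of the parameters of the
block, not constant and no two proportional. Let `h` be a multiplicative function with values in the
unit disc, `h(p) = 1` or `-1` at the primes, with infinite distance to all real Dirichlet
characters. For all `R`, `δ > 0` and `ε > 0` there is `K` such that for all `x ≥ K`, all
`K ≤ D g ≤ R x`, with `x ≤ R (D g)` for the long blocks, and ALL multiplicative functions `f i` with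
values in the unit disc and `f i₀ = h`, the sum over `1 ≤ y g u ≤ D g` of the product of the weights
of the values of the affine functions times the ABSOLUTE VALUE of the correlation sum is at most
`ε x ∏ (D g) ^ r`. -/
theorem result : ∀ (k s r : ℕ) (t : Fin s → ℕ) (a : Fin k → ℤ) (L : Fin k → Fin s → Fin r → ℤ)
    (l : ∀ g, Fin (t g) → Fin r → ℤ) (c : ∀ g, Fin (t g) → ℤ),
    (∀ i, a i ≠ 0) → (∀ g, 0 < t g) → (∀ g j, l g j ≠ 0) → (∀ g, NonProp (l g) (c g)) →
    ∀ (lg : Finset (Fin s)) (i₀ : Fin k), Independent a L lg i₀ →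
    ∀ h : ℕ → ℂ, IsMult h → RealNonPretentious h →
    ∀ (R : ℕ) (δ ε : ℝ), 0 < δ → 0 < ε →
    ∃ K : ℕ, ∀ (D : Fin s → ℕ) (x : ℕ),
      K ≤ x → (∀ g, K ≤ D g) → (∀ g, D g ≤ R * x) → (∀ g ∈ lg, x ≤ R * D g) →
      ∀ f : Fin k → ℕ → ℂ, (∀ i, IsMult (f i)) → f i₀ = h →
      ∑ y ∈ Fintype.piFinset (fun g => Fintype.piFinset fun _ => Icc (1 : ℤ) (D g)),
        (∏ g, ∏ j, weight δ (D g) (∑ u, l g j u * y g u + c g j)) * ‖corr a L f x y‖
        ≤ ε * (x * ∏ g, (D g : ℝ) ^ r) := by
  intro k s r t a L l c ha _ hl hNP lg i₀ hI h hm hR R δ ε hδ hε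
  obtain ⟨w, v, hV1, hV0⟩ := hI
  have hv : ∀ i : Fin k, ∑ q : Fin s × Fin r, Pool.Agent.N788.QP.fl L i q * v q.1 q.2
      = ∑ g, ∑ u, L i g u * v g u := fun i => by
    unfold Pool.Agent.N788.QP.fl
    rw [Fintype.sum_prod_type]
  have hd : Pool.Agent.N675.M.Cdir a (Pool.Agent.N788.QP.fl L)
      (fun q : Fin s × Fin r => lgb lg q.1) i₀ i₀ := by
    refine ⟨?_, w, fun q => v q.1 q.2, ?_, fun i hi hne => ?_⟩
    · rw [Pool.Agent.N675.M.mem_cls]
      intro t _
      rfl
    · show a i₀ * w + ∑ q : Fin s × Fin r, Pool.Agent.N788.QP.fl L i₀ q * v q.1 q.2 ≠ 0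
      rw [hv]
      exact hV1
    · show a i * w + ∑ q : Fin s × Fin r, Pool.Agent.N788.QP.fl L i q * v q.1 q.2 = 0
      rw [hv]
      rw [cls_eq] at hi
      exact hV0 i hi hne
  obtain ⟨K, hK⟩ := Pool.Agent.N788.QP.one_factor_w t a (Pool.Agent.N788.QP.fl L) l c
    Pool.Agent.N675.Q.blk_all ha hl hNP (lgb lg) i₀ hd h hm hR R δ ε hδ hε
  refine ⟨K + 1, fun D x hx hD hDx hlg f hf hfi => ?_⟩
  have hx0 : (0 : ℝ) < x := by exact_mod_cast (by omega : 0 < x)
  have h0 := hK D x (fun g => by have := hD g; omega) (by omega) hDx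
    (fun g hg => hlg g (by simpa [lgb] using hg)) f hf hfi
  have h1 := Pool.Agent.N788.QP.ws_sum t l c δ D x (corr a L f x)
    (fun y => Pool.Agent.N675.M.cc a (Pool.Agent.N788.QP.fl L) (fun i m => f i m.natAbs) x
      (fun q => y q.1 q.2))
    (Pool.Agent.N788.QP.cc_sum a L (fun i m => f i m.natAbs) x (by omega))
  refine le_trans (le_of_eq h1) ?_
  calc _ ≤ (x : ℝ) * (ε * ∏ g, (D g : ℝ) ^ r) := mul_le_mul_of_nonneg_left h0 hx0.le
    _ = ε * (x * ∏ g, (D g : ℝ) ^ r) := by ring

end Pool.Agent.Results.MP_0c9a68_nt.OneFactorPrimeTuples
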