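import Mathlib
import Pool.Agent.N781.FV.Fin

/-!
# Elliott's conjecture in all boxes when the product of the functions is far from all twisted
characters

`f_1, …, f_k` are multiplicative functions with values in the unit disc and `g = f_1 ⋯ f_k`. If `g`
is not close, at all primes but a set with a convergent sum of reciprocals, to a twisted Dirichlet
character `χ(p) p ^ (i v)`, then all the correlations of `f_1, …, f_k` along nonzero integer linear
forms cancel in all boxes with long sides, uniformly over all additive twists.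
-/

open Finset

namespace Pool.Agent.Results.MP_0c9a68_nt.ProductFarFromCharacters

/-- Multiplicative functions with values in the closed unit disc. -/
def IsMult (f : ℕ → ℂ) : Prop :=
  (∀ n, ‖f n‖ ≤ 1) ∧ ∀ m n : ℕ, m.Coprime n → f (m * n) = f m * f n

/-- `g` is far from all twisted characters: for every Dirichlet character `χ` and every real `v`
there is `η > 0` such that the sum of `1 / p` over the primes `p` with
`|g(p) - χ(p) p ^ (i v)| > η` is infinite. -/
def FarFromTwists (g : ℕ → ℂ) : Prop :=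
  ∀ (q : ℕ) (χ : DirichletCharacter ℂ q) (v : ℝ), 1 ≤ q → ∃ η : ℝ, 0 < η ∧
    ¬ Summable fun p : {p : ℕ // p.Prime ∧
      η < ‖g p - χ (p : ZMod q) * (p : ℂ) ^ (Complex.I * (v : ℂ))‖} => (1 : ℝ) / (p : ℕ)

/-- `g` has finitely many values at the primes, and `𝔻(g, χ; ∞) = ∞` for all Dirichlet characters
`χ`. -/
def FiniteNonPretentious (g : ℕ → ℂ) : Prop :=
  (g '' {p : ℕ | p.Prime}).Finite ∧ ∀ (q : ℕ) (χ : DirichletCharacter ℂ q), 1 ≤ q →
    ¬ Summable fun p : Nat.Primes =>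
      (1 - (g p * (starRingEnd ℂ) (χ ((p : ℕ) : ZMod q))).re) / ((p : ℕ) : ℝ)

lemma unbounded_of_not_summable (P : ℕ → Prop) (a : ℕ → ℝ) (ha : ∀ p, P p → 0 ≤ a p)
    (hP : ∀ p, P p → 1 ≤ p) (h : ¬ Summable fun p : {p : ℕ // P p} => a p) (M : ℝ) :
    ∃ T : ℕ, ∀ S : Finset ℕ, (∀ p, P p → p ≤ T → p ∈ S) → (∀ p ∈ S, P p) →
      M < ∑ p ∈ S, a p := by
  by_contra hcon
  push Not at hcon
  apply h
  refine summable_of_sum_le (c := M) (fun p => ha p p.2) fun u => ?_
  obtain ⟨S, hS1, hS2, hS3⟩ := hcon (u.sup (fun p => (p : ℕ)))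
  refine le_trans ?_ hS3
  have h1 : ∑ p ∈ u, a p = ∑ p ∈ u.map (Function.Embedding.subtype P), a p := by
    rw [Finset.sum_map]
    rfl
  rw [h1]
  refine Finset.sum_le_sum_of_subset_of_nonneg ?_ fun p hp _ => ha p (hS2 p hp)
  intro p hp
  rw [Finset.mem_map] at hp
  obtain ⟨⟨x, hx⟩, hxu, rfl⟩ := hp
  exact hS1 x hx (Finset.le_sup (f := fun p : {p : ℕ // P p} => (p : ℕ)) hxu)

theorem result : ∀ (n k : ℕ) (ψ : Fin k → Fin n → ℤ), (∀ i, ψ i ≠ 0) →
    ∀ f : Fin k → ℕ → ℂ, (∀ i, IsMult (f i)) →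
    (FarFromTwists (fun m => ∏ i, f i m) ∨ FiniteNonPretentious (fun m => ∏ i, f i m)) →
    ∀ ε : ℝ, 0 < ε → ∃ K : ℕ, ∀ B : Fin n → ℕ, (∀ s, K ≤ B s) → ∀ θ : Fin n → ℝ,
      ‖∑ y ∈ Fintype.piFinset (fun s => Finset.Icc (1 : ℤ) (B s)),
          Complex.exp (2 * Real.pi * Complex.I * ((∑ s, θ s * y s : ℝ) : ℂ)) *
            ∏ i, f i (∑ s, ψ i s * y s).natAbs‖ ≤ ε * ∏ s, (B s : ℝ) := by
  intro n k ψ hψ f hf h ε hε
  refine Pool.Agent.N781.FV.final_qual ψ hψ f hf ?_ ε hε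
  rcases h with h | ⟨hfin, h⟩
  · left
    intro q χ v hq
    obtain ⟨η, hη, hns⟩ := h q χ v hq
    refine ⟨η, hη, fun M => ?_⟩
    obtain ⟨T, hT⟩ := unbounded_of_not_summable _ (fun p => (1 : ℝ) / (p : ℕ))
      (fun p _ => by positivity) (fun p hp => hp.1.one_lt.le) hns M
    refine ⟨T, hT _ (fun p hp hpT => ?_) (fun p hp => (Finset.mem_filter.mp hp).2)⟩
    exact Finset.mem_filter.mpr ⟨Finset.mem_Icc.mpr ⟨hp.1.one_lt.le, hpT⟩, hp⟩
  · right
    refine ⟨hfin.subset ?_, fun q χ hq M => ?_⟩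
    · rintro _ ⟨p, rfl⟩
      exact ⟨p, p.2, rfl⟩
    · obtain ⟨T, hT⟩ := unbounded_of_not_summable (fun p => p.Prime)
        (fun p => (1 - ((∏ i, f i p) * (starRingEnd ℂ) (χ ((p : ℕ) : ZMod q))).re) / (p : ℝ))
        (fun p _ => by
          refine div_nonneg ?_ (Nat.cast_nonneg _)
          have h1 : ‖(∏ i, f i p) * (starRingEnd ℂ) (χ ((p : ℕ) : ZMod q))‖ ≤ 1 := by
            rw [norm_mul, norm_prod, RCLike.norm_conj]
            refine mul_le_one₀ ?_ (norm_nonneg _) (DirichletCharacter.norm_le_one χ _)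
            exact Finset.prod_le_one (fun _ _ => norm_nonneg _) fun i _ => (hf i).1 p
          have h2 := (abs_le.mp (Complex.abs_re_le_norm
            ((∏ i, f i p) * (starRingEnd ℂ) (χ ((p : ℕ) : ZMod q))))).2
          linarith) (fun p hp => hp.one_lt.le) (h q χ hq) M
      refine ⟨T, hT _ (fun p hp hpT => ?_) (fun p hp => (Finset.mem_filter.mp hp).2)⟩
      exact Finset.mem_filter.mpr ⟨Finset.mem_Icc.mpr ⟨hp.one_lt.le, hpT⟩, hp⟩

end Pool.Agent.Results.MP_0c9a68_nt.ProductFarFromCharacters
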